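import Pool.Agent.H.MP_0f9677_co.A

namespace Pool.Agent.Results.MP_0f9677_co.Product
open Finset Pool.Agent.H.MP_0f9677_co
open scoped Classical

variable {n : ℕ}

noncomputable def prs {G : SimpleGraph (Fin n)} (H : G.Subgraph) : Finset (Fin n × Fin n) :=
  univ.filter fun e => H.Adj e.1 e.2

theorem two_mul {G : SimpleGraph (Fin n)} (H : G.Subgraph) :
    2 * H.edgeSet.ncard = (prs H).card := by
  have := H.spanningCoe.two_mul_card_edgeFinset
  rw [← Set.ncard_coe_finset, SimpleGraph.coe_edgeFinset] at this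
  exact this

theorem sub {G : SimpleGraph (Fin n)} (H : G.Subgraph) : prs H ⊆ H.verts.toFinset.offDiag := by
  intro e he
  have := (mem_filter.1 he).2
  simp only [mem_offDiag, Set.mem_toFinset]
  exact ⟨H.edge_vert this, H.edge_vert this.symm, this.ne⟩

theorem od (s : Finset (Fin n)) : s.offDiag.card + s.card = s.card * s.card := by
  rw [offDiag_card]; exact Nat.sub_add_cancel (Nat.le_mul_self _)

theorem pair {G G' : SimpleGraph (Fin n)} (hd : ∀ u v, G.Adj u v → ¬ G'.Adj u v)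
    (H : G.Subgraph) (K : G'.Subgraph) (hH : H.verts.Nonempty)
    (hle : H.verts.ncard ≤ K.verts.ncard) : ∃ y : ℕ, 1 ≤ y ∧ y ≤ n ∧
      (2 * (H.edgeSet.ncard : ℝ) / H.verts.ncard) * (2 * (K.edgeSet.ncard : ℝ) / K.verts.ncard)
        ≤ phi n y := by
  have h1 := card_le_card (sub H)
  have h2 := card_le_card (sub K)
  have h3 : (prs H).card + (prs K).card ≤
      (H.verts.toFinset.offDiag ∪ K.verts.toFinset.offDiag).card := by
    rw [← card_union_of_disjoint]
    · exact card_le_card (union_subset_union (sub H) (sub K))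
    · exact disjoint_left.2 fun e h1 h2 =>
        hd _ _ (H.adj_sub (mem_filter.1 h1).2) (K.adj_sub (mem_filter.1 h2).2)
  have h4 := card_union_add_card_inter H.verts.toFinset.offDiag K.verts.toFinset.offDiag
  rw [← offDiag_inter] at h4
  have h5 := card_union_add_card_inter H.verts.toFinset K.verts.toFinset
  have h6 := card_le_univ (H.verts.toFinset ∪ K.verts.toFinset)
  have h7 := card_le_univ K.verts.toFinset
  rw [Fintype.card_fin] at h6 h7
  have o1 := od H.verts.toFinset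
  have o2 := od K.verts.toFinset
  have o3 := od (H.verts.toFinset ∩ K.verts.toFinset)
  rw [← two_mul] at h1 h2 h3
  rw [← two_mul] at h3
  have hp := (Set.ncard_pos (Set.toFinite _)).2 hH
  rw [Set.ncard_eq_toFinset_card' H.verts] at hp hle ⊢
  rw [Set.ncard_eq_toFinset_card' K.verts] at hle ⊢
  exact arith n _ _ (H.verts.toFinset ∩ K.verts.toFinset).card _ _ hp hle h7 (by omega)
    (by omega) (by omega) (by omega)

theorem fin (G : SimpleGraph (Fin n)) : {d : ℝ | ∃ H : G.Subgraph, H.verts.Nonempty ∧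
    d = 2 * (H.edgeSet.ncard : ℝ) / (H.verts.ncard : ℝ)}.Finite :=
  (Set.finite_range fun H : G.Subgraph => 2 * (H.edgeSet.ncard : ℝ) / (H.verts.ncard : ℝ)).subset
    fun _ ⟨H, _, h⟩ => ⟨H, h.symm⟩

theorem att (hn : 1 ≤ n) (G : SimpleGraph (Fin n)) : ∃ H : G.Subgraph, H.verts.Nonempty ∧
    Mad G = 2 * (H.edgeSet.ncard : ℝ) / (H.verts.ncard : ℝ) :=
  by
    refine Set.Nonempty.csSup_mem ?_ (fin G)
    exact ⟨_, ⊤, ⟨⟨0, hn⟩, trivial⟩, rfl⟩

theorem low {G : SimpleGraph (Fin n)} (H : G.Subgraph) (h : H.verts.Nonempty) :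
    ((prs H).card : ℝ) / H.verts.ncard ≤ Mad G := by
  rw [← two_mul]; push_cast
  exact le_csSup (fin G).bddAbove ⟨H, h, rfl⟩

theorem up (hn : 1 ≤ n) (G : SimpleGraph (Fin n)) :
    ∃ y : ℕ, 1 ≤ y ∧ y ≤ n ∧ Mad G * Mad Gᶜ ≤ phi n y := by
  obtain ⟨H, hH, e1⟩ := att hn G
  obtain ⟨K, hK, e2⟩ := att hn Gᶜ
  rw [e1, e2]
  rcases le_total H.verts.ncard K.verts.ncard with h | h
  · exact pair (G := G) (G' := Gᶜ) (fun u v h1 h2 => h2.2 h1) H K hH h
  · rw [mul_comm]; exact pair (G := Gᶜ) (G' := G) (fun u v h2 h1 => h2.2 h1) K H hK h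

theorem lowc {x : ℕ} (h1 : 1 ≤ x) (hx : x ≤ n) : phi n x ≤ Mad (cl n x) * Mad (cl n x)ᶜ := by
  set A : Finset (Fin n) := univ.filter fun v => v.val < x with hA
  have hc : A.card = x := by
    rw [hA, Fin.card_filter_val_lt]; omega
  have x1 : (1 : ℝ) ≤ x := by exact_mod_cast h1
  have xn : (x : ℝ) ≤ n := by exact_mod_cast hx
  have o1 : (A.offDiag.card : ℝ) + x = x * x := by
    have := od A; rw [hc] at this; exact_mod_cast this
  have e1 := low ((⊤ : (cl n x).Subgraph).induce A) ⟨⟨0, by omega⟩, by simp [hA]; omega⟩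
  have e2 := low (⊤ : (cl n x)ᶜ.Subgraph) ⟨⟨0, by omega⟩, trivial⟩
  have p1 : prs ((⊤ : (cl n x).Subgraph).induce A) = A.offDiag := by
    ext e
    simp only [prs, mem_filter, mem_univ, true_and, SimpleGraph.Subgraph.induce_adj,
      SimpleGraph.Subgraph.top_adj, mem_offDiag, mem_coe, hA]
    exact ⟨fun h => ⟨h.1, h.2.1, h.2.2.1⟩, fun h => ⟨h.1, h.2.1, h.2.2, h.1, h.2.1⟩⟩
  have p2 : prs (⊤ : (cl n x)ᶜ.Subgraph) = univ.offDiag \ A.offDiag := by
    ext e
    simp only [prs, mem_filter, mem_univ, true_and, SimpleGraph.compl_adj,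
      SimpleGraph.Subgraph.top_adj, mem_offDiag, mem_sdiff, hA]
    exact ⟨fun h => ⟨h.1, fun k => h.2 ⟨k.2.2, k.1, k.2.1⟩⟩,
      fun h => ⟨h.1, fun k => h.2 ⟨k.2.1, k.2.2, k.1⟩⟩⟩
  have o2 : ((univ.offDiag \ A.offDiag : Finset (Fin n × Fin n)).card : ℝ) + A.offDiag.card + n
      = n * n := by
    have := od (univ : Finset (Fin n))
    rw [← card_sdiff_add_card_eq_card (offDiag_mono (subset_univ A)), card_univ,
      Fintype.card_fin] at this
    exact_mod_cast this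
  rw [p1, SimpleGraph.Subgraph.induce_verts, Set.ncard_coe_finset, hc] at e1
  rw [p2, SimpleGraph.Subgraph.verts_top, Set.ncard_univ, Nat.card_fin] at e2
  have f1 : (A.offDiag.card : ℝ) / x = x - 1 := by
    rw [div_eq_iff (by linarith)]; linarith
  have f2 : ((univ.offDiag \ A.offDiag : Finset (Fin n × Fin n)).card : ℝ)
      = (n - x) * (n + x - 1) := by linarith
  rw [f1] at e1; rw [f2] at e2
  have := mul_le_mul e1 e2 (div_nonneg (mul_nonneg (by linarith) (by linarith)) (by linarith))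
    (le_trans (by linarith) e1)
  rw [phi]
  refine le_trans (le_of_eq ?_) this
  ring

theorem result (n : ℕ) (hn : 1 ≤ n) : ∃ x : ℕ, 1 ≤ x ∧ x ≤ n ∧
    (∀ y : ℕ, 1 ≤ y → y ≤ n → phi n y ≤ phi n x) ∧
    Mad (cl n x) * Mad (cl n x)ᶜ = phi n x ∧
    ∀ G : SimpleGraph (Fin n), Mad G * Mad Gᶜ ≤ phi n x := by
  obtain ⟨x, hx, hm⟩ := exists_max_image (Icc 1 n) (phi n) ⟨1, by simp [hn]⟩
  rw [mem_Icc] at hx
  have hm' : ∀ y : ℕ, 1 ≤ y → y ≤ n → phi n y ≤ phi n x := fun y a b => hm y (mem_Icc.2 ⟨a, b⟩)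
  have hu : ∀ G : SimpleGraph (Fin n), Mad G * Mad Gᶜ ≤ phi n x := fun G => by
    obtain ⟨y, a, b, c⟩ := up hn G
    exact c.trans (hm' y a b)
  exact ⟨x, hx.1, hx.2, hm', le_antisymm (hu _) (lowc hx.1 hx.2), hu⟩

end Pool.Agent.Results.MP_0f9677_co.Product
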